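import Pool.Agent.Y922.AP.Stm

/-!
# Project AP: existence of lifts (S_LIFT)
-/

set_option autoImplicit false

open Filter Topology Set

namespace Pool.Agent.Y401.AP

open Pool.Agent.Y922.AP

/-- the local inverse of `X` along the curve, which catches all points of the curve near `y` -/
theorem local_step {X : ℂ → ℂ} (hX : Differentiable ℂ X) {lam : ℝ → ℂ} {x : ℝ} (hlam : AnalyticAt ℝ lam x)
    {y : ℂ} (hy : X y = Complex.exp (lam x)) (hd : deriv X y ≠ 0) :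
    ∃ τ : ℝ → ℂ, τ x = y ∧ (∀ᶠ t in 𝓝 x, AnalyticAt ℝ τ t ∧ X (τ t) = Complex.exp (lam t)) ∧
      ∀ᶠ z in 𝓝 y, ∀ t, X z = Complex.exp (lam t) → τ t = z := by
  have hXa : AnalyticAt ℂ X y := hX.analyticAt y
  have hinv := hXa.analyticAt_localInverse hd
  have hL := hXa.hasStrictDerivAt.eventually_left_inverse hd
  have hR := hXa.hasStrictDerivAt.eventually_right_inverse hd
  set h : ℂ → ℂ := hXa.hasStrictDerivAt.localInverse _ _ _ hd with hh
  have hexp : AnalyticAt ℝ (fun t => Complex.exp (lam t)) x :=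
    AnalyticAt.comp (g := Complex.exp) (f := lam) (analyticAt_cexp.restrictScalars) hlam
  have hval : h (X y) = y := hL.self_of_nhds
  refine ⟨fun t => h (Complex.exp (lam t)), ?_, ?_, ?_⟩
  · show h (Complex.exp (lam x)) = y
    rw [← hy]; exact hval
  · have h1 : AnalyticAt ℝ (fun t => h (Complex.exp (lam t))) x := by
      apply AnalyticAt.comp (g := h) (f := fun t => Complex.exp (lam t)) _ hexp
      rw [← hy]
      exact hinv.restrictScalars
    have h2 : ∀ᶠ t in 𝓝 x, X (h (Complex.exp (lam t))) = Complex.exp (lam t) := by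
      have hc : Tendsto (fun t => Complex.exp (lam t)) (𝓝 x) (𝓝 (X y)) := by
        rw [hy]; exact hexp.continuousAt
      exact hc.eventually hR
    exact h1.eventually_analyticAt.and h2
  · filter_upwards [hL] with z hz t ht
    show h (Complex.exp (lam t)) = z
    rw [← ht]; exact hz

/-- the set of points over which there is no critical point is open -/
theorem isOpen_NC {X : ℂ → ℂ} (hX : Differentiable ℂ X) (hL : LogEnd X) {lam : ℝ → ℂ}
    (hlam : Continuous lam) :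
    IsOpen {x : ℝ | ∀ y : ℂ, X y = Complex.exp (lam x) → deriv X y ≠ 0} := by
  rw [← isClosed_compl_iff, isClosed_iff_ultrafilter]
  intro x u hux hu
  have hbad : ∀ t : ℝ, t ∈ {x : ℝ | ∀ y : ℂ, X y = Complex.exp (lam x) → deriv X y ≠ 0}ᶜ →
      ∃ y : ℂ, X y = Complex.exp (lam t) ∧ deriv X y = 0 := by
    intro t ht
    simp only [mem_compl_iff, mem_ofPred_eq, not_forall] at ht
    obtain ⟨y, hy1, hy2⟩ := ht
    exact ⟨y, hy1, not_not.1 hy2⟩
  have : ∀ t : ℝ, ∃ y : ℂ, t ∈ {x : ℝ | ∀ y : ℂ, X y = Complex.exp (lam x) → deriv X y ≠ 0}ᶜ →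
      (X y = Complex.exp (lam t) ∧ deriv X y = 0) := by
    intro t
    by_cases ht : t ∈ {x : ℝ | ∀ y : ℂ, X y = Complex.exp (lam x) → deriv X y ≠ 0}ᶜ
    · obtain ⟨y, hy⟩ := hbad t ht
      exact ⟨y, fun _ => hy⟩
    · exact ⟨0, fun h => absurd h ht⟩
  choose f hf using this
  have hcexp : Continuous (fun t : ℝ => Complex.exp (lam t)) := Complex.continuous_exp.comp hlam
  have hc0 : 0 < ‖Complex.exp (lam x)‖ / 2 := by
    have : 0 < ‖Complex.exp (lam x)‖ := norm_pos_iff.2 (Complex.exp_ne_zero _)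
    linarith
  obtain ⟨ρ, ell, -, -, -, h4⟩ := hL _ hc0
  have hev1 : ∀ᶠ t in (u : Filter ℝ), ‖Complex.exp (lam x)‖ / 2 ≤ ‖Complex.exp (lam t)‖ := by
    have h1 : ∀ᶠ t in 𝓝 x, ‖Complex.exp (lam x)‖ / 2 < ‖Complex.exp (lam t)‖ :=
      (hcexp.norm.tendsto x).eventually_const_lt (by
        have : 0 < ‖Complex.exp (lam x)‖ := norm_pos_iff.2 (Complex.exp_ne_zero _)
        linarith)
    have h1' : ∀ᶠ t in (u : Filter ℝ), ‖Complex.exp (lam x)‖ / 2 < ‖Complex.exp (lam t)‖ := hux h1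
    exact h1'.mono fun t ht => ht.le
  have hev2 : ∀ᶠ t in (u : Filter ℝ), f t ∈ Metric.closedBall (0 : ℂ) ρ := by
    filter_upwards [hev1, hu] with t ht1 ht2
    rw [mem_closedBall_zero_iff]
    by_contra hcon
    push Not at hcon
    obtain ⟨e1, e2⟩ := hf t ht2
    exact h4 (f t) hcon.le (by rw [e1]; exact ht1) e2
  obtain ⟨y, -, hy⟩ := (isCompact_closedBall (0 : ℂ) ρ).ultrafilter_le_nhds (u.map f)
    (by rw [le_principal_iff]; exact hev2)
  have hfy : Tendsto f u (𝓝 y) := hy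
  have hder : Continuous (deriv X) := (hX.contDiff (n := 2)).continuous_deriv (by norm_num)
  simp only [mem_compl_iff, mem_ofPred_eq, not_forall, not_not]
  refine ⟨y, ?_, ?_⟩
  · have t1 : Tendsto (fun t => X (f t)) u (𝓝 (X y)) := (hX.continuous.tendsto y).comp hfy
    have t2 : Tendsto (fun t => Complex.exp (lam t)) u (𝓝 (Complex.exp (lam x))) :=
      (hcexp.tendsto x).mono_left hux
    refine tendsto_nhds_unique (t1.congr' ?_) t2
    filter_upwards [hu] with t ht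
    exact (hf t ht).1
  · have t1 : Tendsto (fun t => deriv X (f t)) u (𝓝 (deriv X y)) := (hder.tendsto y).comp hfy
    have t2 : Tendsto (fun _ : ℝ => (0 : ℂ)) u (𝓝 0) := tendsto_const_nhds
    refine tendsto_nhds_unique (t1.congr' ?_) t2
    filter_upwards [hu] with t ht
    exact (hf t ht).2

theorem Lift.mono {X : ℂ → ℂ} {lam : ℝ → ℂ} {I J : Set ℝ} {σ : ℝ → ℂ} (h : Lift X lam I σ) (hJ : J ⊆ I) :
    Lift X lam J σ := ⟨fun x hx => h.1 x (hJ hx), fun x hx => h.2 x (hJ hx)⟩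

/-- existence of lifts over open intervals -/
theorem lift_open (h1 : S_UNIQ) (h2 : S_BDD) {X : ℂ → ℂ} {lam : ℝ → ℂ} {J : Set ℝ}
    (hX : Differentiable ℂ X) (hL : LogEnd X) (hlam : ∀ x, AnalyticAt ℝ lam x) (hJo : IsOpen J)
    (hJ : J.OrdConnected) (hN : NC X lam J) {x₀ : ℝ} (hx₀ : x₀ ∈ J) {y₀ : ℂ}
    (hy₀ : X y₀ = Complex.exp (lam x₀)) : ∃ σ : ℝ → ℂ, Lift X lam J σ ∧ σ x₀ = y₀ := by
  classical
  have hlamc : Continuous lam := continuous_iff_continuousAt.2 fun x => (hlam x).continuousAt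
  have hcexp : Continuous (fun t : ℝ => Complex.exp (lam t)) := Complex.continuous_exp.comp hlamc
  -- the family of good sets
  let S : Set (Set ℝ) := {V | IsOpen V ∧ V.OrdConnected ∧ V ⊆ J ∧ x₀ ∈ V ∧
    ∃ σ : ℝ → ℂ, Lift X lam V σ ∧ σ x₀ = y₀}
  have huniq : ∀ (V W : Set ℝ) (σ τ : ℝ → ℂ), V.OrdConnected → W.OrdConnected → V ⊆ J →
      Lift X lam V σ → Lift X lam W τ → ∀ z, z ∈ V → z ∈ W → σ z = τ z → ∀ x, x ∈ V → x ∈ W → σ x = τ x := by
    intro V W σ τ hV hW hVJ hσ hτ z hzV hzW hz x hxV hxW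
    refine h1 X lam (V ∩ W) σ τ hX (hV.inter hW) (Lift.mono hσ inter_subset_left)
      (Lift.mono hτ inter_subset_right) (fun x hx => hN x (hVJ hx.1)) z ⟨hzV, hzW⟩ hz x ⟨hxV, hxW⟩
  -- the union
  let U : Set ℝ := ⋃₀ S
  have hUo : IsOpen U := isOpen_sUnion fun V hV => hV.1
  have hUc : U.OrdConnected := by
    rw [← isPreconnected_iff_ordConnected]
    apply isPreconnected_sUnion x₀ S (fun V hV => hV.2.2.2.1)
    intro V hV
    rw [isPreconnected_iff_ordConnected]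
    exact hV.2.1
  have hUJ : U ⊆ J := sUnion_subset fun V hV => hV.2.2.1
  -- one lift on the union
  have hlift : ∃ σ : ℝ → ℂ, Lift X lam U σ ∧ ∀ V ∈ S, ∀ τ : ℝ → ℂ, Lift X lam V τ → τ x₀ = y₀ →
      ∀ x ∈ V, σ x = τ x := by
    have hch : ∀ x : ℝ, ∃ (V : Set ℝ) (τ : ℝ → ℂ), x ∈ U →
        (V ∈ S ∧ x ∈ V ∧ Lift X lam V τ ∧ τ x₀ = y₀) := by
      intro x
      by_cases hx : x ∈ U
      · obtain ⟨V, hV, hxV⟩ := hx
        obtain ⟨τ, hτ⟩ := hV.2.2.2.2
        exact ⟨V, τ, fun _ => ⟨hV, hxV, hτ⟩⟩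
      · exact ⟨∅, fun _ => 0, fun h => absurd h hx⟩
    choose V τ hVτ using hch
    have hag : ∀ W ∈ S, ∀ ρ : ℝ → ℂ, Lift X lam W ρ → ρ x₀ = y₀ → ∀ x ∈ W, τ x x = ρ x := by
      intro W hW ρ hρ hρ0 x hx
      obtain ⟨hV, hxV, hτ, hτ0⟩ := hVτ x ⟨W, hW, hx⟩
      exact huniq (V x) W (τ x) ρ hV.2.1 hW.2.1 hV.2.2.1 hτ hρ x₀ hV.2.2.2.1 hW.2.2.2.1
        (hτ0.trans hρ0.symm) x hxV hx
    refine ⟨fun x => τ x x, ⟨?_, ?_⟩, hag⟩
    · intro x hx
      obtain ⟨hV, hxV, hτ, hτ0⟩ := hVτ x hx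
      refine (hτ.1 x hxV).congr ?_
      filter_upwards [hV.1.mem_nhds hxV] with t ht
      exact (hag (V x) hV (τ x) hτ hτ0 t ht).symm
    · intro x hx
      obtain ⟨hV, hxV, hτ, hτ0⟩ := hVτ x hx
      exact hτ.2 x hxV
  obtain ⟨σ, hσ, hσag⟩ := hlift
  -- local lifts on intervals
  have hloc : ∀ x ∈ J, ∀ y : ℂ, X y = Complex.exp (lam x) → ∃ (τ : ℝ → ℂ) (W : Set ℝ), τ x = y ∧
      IsOpen W ∧ W.OrdConnected ∧ W ⊆ J ∧ x ∈ W ∧ Lift X lam W τ ∧
      ∀ᶠ z in 𝓝 y, ∀ t, X z = Complex.exp (lam t) → τ t = z := by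
    intro x hx y hy
    obtain ⟨τ, hτ0, hτ1, hτ2⟩ := local_step hX (hlam x) hy (hN x hx y hy)
    obtain ⟨δ, hδ, hball⟩ := Metric.eventually_nhds_iff_ball.1 (hτ1.and (hJo.mem_nhds hx))
    refine ⟨τ, Metric.ball x δ, hτ0, Metric.isOpen_ball, ?_, fun t ht => (hball t ht).2,
      Metric.mem_ball_self hδ, ⟨fun t ht => (hball t ht).1.1, fun t ht => (hball t ht).1.2⟩, hτ2⟩
    rw [Real.ball_eq_Ioo]; exact ordConnected_Ioo
  -- the union contains `x₀`
  have hx₀U : x₀ ∈ U := by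
    obtain ⟨τ, W, e1, e2, e3, e4, e5, e6, -⟩ := hloc x₀ hx₀ y₀ hy₀
    exact ⟨W, ⟨e2, e3, e4, e5, τ, e6, e1⟩, e5⟩
  have hUS : U ∈ S ∧ σ x₀ = y₀ := by
    have hv : σ x₀ = y₀ := by
      obtain ⟨V, hV, hxV⟩ := hx₀U
      obtain ⟨τ, hτ, hτ0⟩ := hV.2.2.2.2
      rw [hσag V hV τ hτ hτ0 x₀ hxV, hτ0]
    exact ⟨⟨hUo, hUc, hUJ, hx₀U, σ, hσ, hv⟩, hv⟩
  -- the union is everything
  have hUall : J ⊆ U := by
    apply IsPreconnected.subset_of_closure_inter_subset (isPreconnected_iff_ordConnected.2 hJ) hUo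
      ⟨x₀, hx₀, hx₀U⟩
    rintro x ⟨hxcl, hxJ⟩
    -- an ultrafilter on `U` converging to `x`
    obtain ⟨u, huU, hux⟩ := mem_closure_iff_ultrafilter.1 hxcl
    obtain ⟨M, hM⟩ := h2 X lam (x - 1) (x + 1) (U ∩ Icc (x - 1) (x + 1)) σ hX hL hlamc
      (hUc.inter ordConnected_Icc) inter_subset_right (Lift.mono hσ inter_subset_left)
    have hIcc : Icc (x - 1) (x + 1) ∈ (u : Filter ℝ) :=
      hux (Icc_mem_nhds (by linarith) (by linarith))
    have hev : ∀ᶠ t in (u : Filter ℝ), σ t ∈ Metric.closedBall (0 : ℂ) M := by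
      filter_upwards [huU, hIcc] with t ht1 ht2
      rw [mem_closedBall_zero_iff]
      exact hM t ⟨ht1, ht2⟩
    obtain ⟨y, -, hy⟩ := (isCompact_closedBall (0 : ℂ) M).ultrafilter_le_nhds (u.map σ)
      (by rw [le_principal_iff]; exact hev)
    have hσy : Tendsto σ u (𝓝 y) := hy
    have hXy : X y = Complex.exp (lam x) := by
      have t1 : Tendsto (fun t => X (σ t)) u (𝓝 (X y)) := (hX.continuous.tendsto y).comp hσy
      have t2 : Tendsto (fun t => Complex.exp (lam t)) u (𝓝 (Complex.exp (lam x))) :=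
        (hcexp.tendsto x).mono_left hux
      refine tendsto_nhds_unique (t1.congr' ?_) t2
      filter_upwards [huU] with t ht
      exact hσ.2 t ht
    obtain ⟨τ, W, e1, e2, e3, e4, e5, e6, e7⟩ := hloc x hxJ y hXy
    have hWu : W ∈ (u : Filter ℝ) := hux (e2.mem_nhds e5)
    have huU' : ∀ᶠ t in (u : Filter ℝ), t ∈ U := huU
    have hWu' : ∀ᶠ t in (u : Filter ℝ), t ∈ W := hWu
    obtain ⟨t, ⟨⟨ht1, ht2⟩, ht3⟩⟩ := ((huU'.and hWu').and (hσy.eventually e7)).exists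
    have htt : σ t = τ t := (ht3 t (hσ.2 t ht1)).symm
    have hag : ∀ s, s ∈ U → s ∈ W → σ s = τ s :=
      huniq U W σ τ hUc e3 hUJ hσ e6 t ht1 ht2 htt
    -- the glued function
    let σ' : ℝ → ℂ := fun s => if s ∈ U then σ s else τ s
    have hσ'U : ∀ s ∈ U, σ' s = σ s := fun s hs => if_pos hs
    have hσ'W : ∀ s ∈ W, σ' s = τ s := by
      intro s hs
      by_cases hsU : s ∈ U
      · rw [hσ'U s hsU]; exact hag s hsU hs
      · exact if_neg hsU
    have hV : U ∪ W ∈ S := by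
      refine ⟨hUo.union e2, ?_, union_subset hUJ e4, Or.inl hx₀U, σ', ⟨?_, ?_⟩, ?_⟩
      · rw [← isPreconnected_iff_ordConnected]
        exact IsPreconnected.union t ht1 ht2 (isPreconnected_iff_ordConnected.2 hUc)
          (isPreconnected_iff_ordConnected.2 e3)
      · rintro s (hs | hs)
        · refine (hσ.1 s hs).congr ?_
          filter_upwards [hUo.mem_nhds hs] with r hr
          exact (hσ'U r hr).symm
        · refine (e6.1 s hs).congr ?_
          filter_upwards [e2.mem_nhds hs] with r hr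
          exact (hσ'W r hr).symm
      · rintro s (hs | hs)
        · rw [hσ'U s hs]; exact hσ.2 s hs
        · rw [hσ'W s hs]; exact e6.2 s hs
      · rw [hσ'U x₀ hx₀U]; exact hUS.2
    exact ⟨U ∪ W, hV, Or.inr e5⟩
  exact ⟨σ, Lift.mono hσ hUall, hUS.2⟩

theorem t_LIFT (h1 : S_UNIQ) (h2 : S_BDD) : S_LIFT := by
  intro X lam I hX hL hlam hI hN x₀ hx₀ y₀ hy₀
  have hlamc : Continuous lam := continuous_iff_continuousAt.2 fun x => (hlam x).continuousAt
  have hOpen := isOpen_NC hX hL hlamc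
  set O : Set ℝ := {x : ℝ | ∀ y : ℂ, X y = Complex.exp (lam x) → deriv X y ≠ 0} with hO
  have hIO : I ⊆ O := fun x hx => hN x hx
  have hIJ : I ⊆ connectedComponentIn O x₀ :=
    (isPreconnected_iff_ordConnected.2 hI).subset_connectedComponentIn hx₀ hIO
  obtain ⟨σ, hσ, hσ0⟩ := lift_open h1 h2 (J := connectedComponentIn O x₀) hX hL hlam
    hOpen.connectedComponentIn (isPreconnected_iff_ordConnected.1 isPreconnected_connectedComponentIn)
    (fun x hx => connectedComponentIn_subset O x₀ hx) (hIJ hx₀) hy₀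
  exact ⟨σ, Lift.mono hσ hIJ, hσ0⟩

end Pool.Agent.Y401.AP

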